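import Mathlib

/-!
# Bi-Hölder embeddings of the circle by Weierstrass-type functions

For every integer `b ≥ 2` and every `α ∈ (0,1)` there are finitely many `1`-periodic Lipschitz
functions whose Weierstrass embedding is `α`-bi-Hölder.
-/

open Filter Topology Set

namespace Pool.Agent.Results.MP_0a5dd0_an.BiHolder

/-- `W_g(x) = ∑_{k ≥ 0} b^(-α k) g(b^k x)`. -/
noncomputable def W (b : ℕ) (α : ℝ) (g : ℝ → ℝ) (x : ℝ) : ℝ :=
  ∑' k : ℕ, (b : ℝ) ^ (-(α * k)) * g ((b : ℝ) ^ k * x)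

/-- The Weierstrass embedding `Φ(x) = (W_{g_1}(x), …, W_{g_m}(x))`. -/
noncomputable def Phi (b : ℕ) (α : ℝ) {m : ℕ} (g : Fin m → ℝ → ℝ) (x : ℝ) :
    EuclideanSpace ℝ (Fin m) :=
  WithLp.toLp 2 fun i => W b α (g i) x

/-! ### The sum estimate -/

section sums
variable {b : ℕ} {α : ℝ}

lemma weight_eq (hb : 2 ≤ b) (k : ℕ) :
    (b : ℝ) ^ (-(α * k)) = ((b : ℝ) ^ (-α)) ^ k := by
  rw [← Real.rpow_natCast, ← Real.rpow_mul (by positivity)]
  congr 1
  ring

lemma q_pos (hb : 2 ≤ b) : 0 < (b : ℝ) ^ (-α) := by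
  have : (0 : ℝ) < b := by exact_mod_cast (by omega : 0 < b)
  positivity

lemma q_lt_one (hb : 2 ≤ b) (hα : 0 < α) : (b : ℝ) ^ (-α) < 1 := by
  have : (1 : ℝ) < b := by exact_mod_cast (by omega : 1 < b)
  exact Real.rpow_lt_one_of_one_lt_of_neg this (by linarith)

lemma p_gt_one (hb : 2 ≤ b) (hα : α < 1) : 1 < (b : ℝ) ^ (1 - α) := by
  have : (1 : ℝ) < b := by exact_mod_cast (by omega : 1 < b)
  exact Real.one_lt_rpow this (by linarith)

lemma p_eq (hb : 2 ≤ b) : (b : ℝ) ^ (1 - α) = (b : ℝ) ^ (-α) * b := by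
  have : (0 : ℝ) < b := by exact_mod_cast (by omega : 0 < b)
  rw [show (1 : ℝ) - α = -α + 1 by ring, Real.rpow_add_one this.ne']

lemma summable_weighted (hb : 2 ≤ b) (hα : 0 < α) {c : ℕ → ℝ} {L : ℝ} (hc : ∀ k, |c k| ≤ L) :
    Summable fun k : ℕ => ((b : ℝ) ^ (-α)) ^ k * c k := by
  have hq0 := q_pos (α := α) hb
  have hq1 := q_lt_one hb hα
  refine Summable.of_norm_bounded (g := fun k => ((b : ℝ) ^ (-α)) ^ k * L)
    ((summable_geometric_of_lt_one hq0.le hq1).mul_right L) fun k => ?_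
  rw [Real.norm_eq_abs, abs_mul, abs_of_pos (pow_pos hq0 k)]
  exact mul_le_mul_of_nonneg_left (hc k) (pow_pos hq0 k).le

/-- The constants. -/
noncomputable def C1 (b : ℕ) (α : ℝ) : ℝ := (b : ℝ) ^ (1 - α) / ((b : ℝ) ^ (1 - α) - 1)

/-- The constants. -/
noncomputable def C2 (b : ℕ) (α : ℝ) : ℝ := (b : ℝ) ^ (-α) / (1 - (b : ℝ) ^ (-α))

/-- `∑ b^(-α k) min (L₁ b^k h, L₂) ≤ b^(-α N) (C₁ L₁ + C₂ L₂)` if `h ≤ b^(-N)`. -/
lemma sum_min_le (hb : 2 ≤ b) (hα : 0 < α) (hα1 : α < 1) {L1 L2 h : ℝ} (hL1 : 0 ≤ L1)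
    (hL2 : 0 ≤ L2) (h0 : 0 ≤ h) {N : ℕ} (hN : h * (b : ℝ) ^ N ≤ 1) :
    ∑' k : ℕ, ((b : ℝ) ^ (-α)) ^ k * min (L1 * ((b : ℝ) ^ k * h)) L2 ≤
      ((b : ℝ) ^ (-α)) ^ N * (C1 b α * L1 + C2 b α * L2) := by
  have hq0 := q_pos (α := α) hb
  have hq1 := q_lt_one hb hα
  have hp1 := p_gt_one hb hα1
  have hpq := p_eq (α := α) hb
  have hb0 : (0 : ℝ) < b := by exact_mod_cast (by omega : 0 < b)
  set q : ℝ := (b : ℝ) ^ (-α) with hq
  set p : ℝ := (b : ℝ) ^ (1 - α) with hp
  have hs : Summable fun k : ℕ => q ^ k * min (L1 * ((b : ℝ) ^ k * h)) L2 :=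
    summable_weighted hb hα (L := L2) fun k => by
      rw [abs_of_nonneg (le_min (by positivity) hL2)]
      exact min_le_right _ _
  rw [← hs.sum_add_tsum_nat_add (N + 1)]
  have hA : ∑ k ∈ Finset.range (N + 1), q ^ k * min (L1 * ((b : ℝ) ^ k * h)) L2 ≤
      q ^ N * (C1 b α * L1) := by
    calc ∑ k ∈ Finset.range (N + 1), q ^ k * min (L1 * ((b : ℝ) ^ k * h)) L2
        ≤ ∑ k ∈ Finset.range (N + 1), (L1 * h) * p ^ k := by
          apply Finset.sum_le_sum
          intro k _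
          calc q ^ k * min (L1 * ((b : ℝ) ^ k * h)) L2 ≤ q ^ k * (L1 * ((b : ℝ) ^ k * h)) := by
                gcongr
                exact min_le_left _ _
            _ = (L1 * h) * p ^ k := by
                rw [hpq, mul_pow]
                ring
      _ = (L1 * h) * ((p ^ (N + 1) - 1) / (p - 1)) := by
          rw [← Finset.mul_sum, geom_sum_eq hp1.ne']
      _ ≤ (L1 * h) * (p ^ (N + 1) / (p - 1)) := by
          have hp2 : 0 < p - 1 := by linarith
          gcongr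
          linarith
      _ = (h * (b : ℝ) ^ N) * (q ^ N * (C1 b α * L1)) := by
          unfold C1
          rw [← hp, pow_succ, show p ^ N = q ^ N * (b : ℝ) ^ N by rw [hpq, mul_pow]]
          ring
      _ ≤ 1 * (q ^ N * (C1 b α * L1)) := by
          have hC : 0 ≤ C1 b α := by
            unfold C1
            rw [← hp]
            have hp2 : 0 < p - 1 := by linarith
            positivity
          gcongr
      _ = _ := one_mul _
  have hB : ∑' k : ℕ, q ^ (k + (N + 1)) * min (L1 * ((b : ℝ) ^ (k + (N + 1)) * h)) L2 ≤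
      q ^ N * (C2 b α * L2) := by
    have hg := summable_geometric_of_lt_one hq0.le hq1
    calc ∑' k : ℕ, q ^ (k + (N + 1)) * min (L1 * ((b : ℝ) ^ (k + (N + 1)) * h)) L2
        ≤ ∑' k : ℕ, q ^ k * (q ^ (N + 1) * L2) := by
          refine Summable.tsum_le_tsum (fun k => ?_) ((summable_nat_add_iff (N + 1)).mpr hs)
            (hg.mul_right _)
          calc q ^ (k + (N + 1)) * min (L1 * ((b : ℝ) ^ (k + (N + 1)) * h)) L2
              ≤ q ^ (k + (N + 1)) * L2 := by
                gcongr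
                exact min_le_right _ _
            _ = q ^ k * (q ^ (N + 1) * L2) := by
                rw [pow_add]
                ring
      _ = (1 - q)⁻¹ * (q ^ (N + 1) * L2) := by
          rw [tsum_mul_right, tsum_geometric_of_lt_one hq0.le hq1]
      _ = q ^ N * (C2 b α * L2) := by
          unfold C2
          rw [← hq, pow_succ]
          ring
  calc _ ≤ q ^ N * (C1 b α * L1) + q ^ N * (C2 b α * L2) := add_le_add hA hB
    _ = _ := by ring

lemma W_sub (hb : 2 ≤ b) (hα : 0 < α) {g : ℝ → ℝ} {B : ℝ} (hg : ∀ x, |g x| ≤ B) (x h : ℝ) :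
    W b α g (x + h) - W b α g x =
      ∑' k : ℕ, ((b : ℝ) ^ (-α)) ^ k * (g ((b : ℝ) ^ k * x + (b : ℝ) ^ k * h) -
        g ((b : ℝ) ^ k * x)) := by
  unfold W
  simp only [weight_eq hb, mul_add]
  rw [← Summable.tsum_sub (summable_weighted hb hα fun k => hg _)
    (summable_weighted hb hα fun k => hg _)]
  congr 1
  funext k
  ring

/-- Upper bound. -/
lemma W_upper (hb : 2 ≤ b) (hα : 0 < α) (hα1 : α < 1) {g : ℝ → ℝ} {B L1 L2 : ℝ}
    (hL1 : 0 ≤ L1) (hL2 : 0 ≤ L2)
    (hg : ∀ x, |g x| ≤ B) (hg1 : ∀ u s, 0 ≤ s → |g (u + s) - g u| ≤ L1 * s)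
    (hg2 : ∀ u v, |g u - g v| ≤ L2) (x h : ℝ) (h0 : 0 ≤ h) {N : ℕ}
    (hN : h * (b : ℝ) ^ N ≤ 1) :
    |W b α g (x + h) - W b α g x| ≤ ((b : ℝ) ^ (-α)) ^ N * (C1 b α * L1 + C2 b α * L2) := by
  rw [W_sub hb hα hg]
  have hq0 := q_pos (α := α) hb
  have hb0 : (0 : ℝ) < b := by exact_mod_cast (by omega : 0 < b)
  set q : ℝ := (b : ℝ) ^ (-α) with hq
  have hterm : ∀ k : ℕ, |q ^ k * (g ((b : ℝ) ^ k * x + (b : ℝ) ^ k * h) - g ((b : ℝ) ^ k * x))| ≤
      q ^ k * min (L1 * ((b : ℝ) ^ k * h)) L2 := by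
    intro k
    rw [abs_mul, abs_of_pos (pow_pos hq0 k)]
    apply mul_le_mul_of_nonneg_left _ (pow_pos hq0 k).le
    exact le_min (hg1 _ _ (by positivity)) (hg2 _ _)
  have hs2 : Summable fun k : ℕ => q ^ k * min (L1 * ((b : ℝ) ^ k * h)) L2 :=
    summable_weighted hb hα (L := L2) fun k => by
      rw [abs_of_nonneg (le_min (by positivity) hL2)]
      exact min_le_right _ _
  have hs1 : Summable fun k : ℕ =>
      ‖q ^ k * (g ((b : ℝ) ^ k * x + (b : ℝ) ^ k * h) - g ((b : ℝ) ^ k * x))‖ :=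
    Summable.of_nonneg_of_le (fun k => norm_nonneg _) hterm hs2
  calc |∑' k : ℕ, q ^ k * (g ((b : ℝ) ^ k * x + (b : ℝ) ^ k * h) - g ((b : ℝ) ^ k * x))|
      ≤ ∑' k : ℕ, ‖q ^ k * (g ((b : ℝ) ^ k * x + (b : ℝ) ^ k * h) - g ((b : ℝ) ^ k * x))‖ := by
        rw [← Real.norm_eq_abs]
        exact norm_tsum_le_tsum_norm hs1
    _ ≤ ∑' k : ℕ, q ^ k * min (L1 * ((b : ℝ) ^ k * h)) L2 :=
        Summable.tsum_le_tsum hterm hs1 hs2
    _ ≤ _ := sum_min_le hb hα hα1 hL1 hL2 h0 hN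

/-- Lower bound. -/
lemma W_lower (hb : 2 ≤ b) (hα : 0 < α) (hα1 : α < 1) {g : ℝ → ℝ} {B L : ℝ}
    (hL : 0 ≤ L) (hg : ∀ x, |g x| ≤ B) (hg1 : ∀ u s, 0 ≤ s → -(L * s) ≤ g (u + s) - g u)
    (hg2 : ∀ u v, |g u - g v| ≤ L) (x h : ℝ) (h0 : 0 ≤ h) {N K : ℕ}
    (hN : h * (b : ℝ) ^ N ≤ 1) (hK1 : (b : ℝ) ^ K * h ≤ 1)
    (hK : L - L * ((b : ℝ) ^ K * h) ≤ g ((b : ℝ) ^ K * x + (b : ℝ) ^ K * h) - g ((b : ℝ) ^ K * x)) :
    ((b : ℝ) ^ (-α)) ^ K * L - ((b : ℝ) ^ (-α)) ^ N * (C1 b α * L + C2 b α * L) ≤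
      W b α g (x + h) - W b α g x := by
  rw [W_sub hb hα hg]
  have hq0 := q_pos (α := α) hb
  have hb0 : (0 : ℝ) < b := by exact_mod_cast (by omega : 0 < b)
  have hmin := sum_min_le hb hα hα1 hL hL h0 hN
  set q : ℝ := (b : ℝ) ^ (-α) with hq
  have hs2 : Summable fun k : ℕ => q ^ k * min (L * ((b : ℝ) ^ k * h)) L :=
    summable_weighted hb hα (L := L) fun k => by
      rw [abs_of_nonneg (le_min (by positivity) hL)]
      exact min_le_right _ _
  have hs1 : Summable fun k : ℕ =>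
      q ^ k * (g ((b : ℝ) ^ k * x + (b : ℝ) ^ k * h) - g ((b : ℝ) ^ k * x)) :=
    summable_weighted hb hα fun k => hg2 _ _
  have hs3 := hs1.add hs2
  have hnonneg : ∀ k : ℕ, 0 ≤ q ^ k * (g ((b : ℝ) ^ k * x + (b : ℝ) ^ k * h) -
      g ((b : ℝ) ^ k * x)) + q ^ k * min (L * ((b : ℝ) ^ k * h)) L := by
    intro k
    rw [← mul_add]
    apply mul_nonneg (pow_pos hq0 k).le
    rcases le_total (L * ((b : ℝ) ^ k * h)) L with h1 | h1
    · rw [min_eq_left h1]
      have := hg1 ((b : ℝ) ^ k * x) ((b : ℝ) ^ k * h) (by positivity)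
      linarith
    · rw [min_eq_right h1]
      have := (abs_le.mp (hg2 ((b : ℝ) ^ k * x + (b : ℝ) ^ k * h) ((b : ℝ) ^ k * x))).1
      linarith
  have hle := hs3.le_tsum K (fun k _ => hnonneg k)
  have hKle : q ^ K * L ≤ q ^ K * (g ((b : ℝ) ^ K * x + (b : ℝ) ^ K * h) -
      g ((b : ℝ) ^ K * x)) + q ^ K * min (L * ((b : ℝ) ^ K * h)) L := by
    rw [← mul_add]
    apply mul_le_mul_of_nonneg_left _ (pow_pos hq0 K).le
    have h1 : L * ((b : ℝ) ^ K * h) ≤ L := mul_le_of_le_one_right hL hK1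
    rw [min_eq_left h1]
    linarith
  rw [hs1.tsum_add hs2] at hle
  linarith

end sums


/-! ### The piecewise linear functions -/

/-- The length of `[0, 1/M] + ℤ` up to `x`. -/
noncomputable def H (M : ℕ) (x : ℝ) : ℝ := (⌊x⌋ : ℝ) / M + min (Int.fract x) (1 / M)

/-- The function with derivative `1 - 1/M` on `[0, 1/M] + ℤ` and `-1/M` elsewhere. -/
noncomputable def g0 (M : ℕ) (x : ℝ) : ℝ := min (Int.fract x) (1 / M) - Int.fract x / M

lemma g0_eq (M : ℕ) (x : ℝ) : g0 M x = H M x - x / M := by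
  unfold g0 H
  have h := Int.floor_add_fract x
  have h2 : x / M = (⌊x⌋ : ℝ) / M + Int.fract x / M := by
    rw [← add_div, h]
  rw [h2]
  ring

lemma floor_cases {u v : ℝ} (h : u ≤ v) : ⌊u⌋ = ⌊v⌋ ∨ (⌊u⌋ : ℝ) + 1 ≤ ⌊v⌋ := by
  have h1 := Int.floor_le_floor h
  rcases eq_or_lt_of_le h1 with h2 | h2
  · exact Or.inl h2
  · right
    have : ⌊u⌋ + 1 ≤ ⌊v⌋ := by omega
    exact_mod_cast this

lemma H_mono {M : ℕ} (hM : 1 ≤ M) {u v : ℝ} (h : u ≤ v) : H M u ≤ H M v := by
  have hM0 : (0 : ℝ) < M := by exact_mod_cast hM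
  unfold H
  have hu := Int.floor_add_fract u
  have hv := Int.floor_add_fract v
  rcases floor_cases h with h1 | h1
  · rw [h1] at hu ⊢
    have : Int.fract u ≤ Int.fract v := by linarith
    gcongr
  · have h2 : min (Int.fract u) (1 / (M : ℝ)) ≤ 1 / M := min_le_right _ _
    have h3 : 0 ≤ min (Int.fract v) (1 / (M : ℝ)) :=
      le_min (Int.fract_nonneg v) (by positivity)
    have h4 : (⌊u⌋ : ℝ) / M + 1 / M ≤ ⌊v⌋ / M := by
      rw [← add_div]
      gcongr
    linarith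

lemma H_lip {M : ℕ} (hM : 1 ≤ M) {u v : ℝ} (h : u ≤ v) : H M v - H M u ≤ v - u := by
  have hM0 : (0 : ℝ) < M := by exact_mod_cast hM
  have hM1 : (1 : ℝ) ≤ M := by exact_mod_cast hM
  unfold H
  have hu := Int.floor_add_fract u
  have hv := Int.floor_add_fract v
  have hfu := Int.fract_lt_one u
  have hfu0 := Int.fract_nonneg u
  have hfv0 := Int.fract_nonneg v
  have hc : (1 : ℝ) / M ≤ 1 := by rw [div_le_one hM0]; exact hM1
  have hc0 : (0 : ℝ) < 1 / M := by positivity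
  rcases floor_cases h with h1 | h1
  · rw [h1] at hu ⊢
    have h2 : Int.fract u ≤ Int.fract v := by linarith
    rcases le_total (Int.fract u) (1 / (M : ℝ)) with h3 | h3
    · have h4 : min (Int.fract v) (1 / (M : ℝ)) ≤ Int.fract v := min_le_left _ _
      rw [min_eq_left h3]
      linarith
    · have h4 : min (Int.fract v) (1 / (M : ℝ)) ≤ 1 / M := min_le_right _ _
      rw [min_eq_right h3]
      linarith
  · have h2 : min (Int.fract v) (1 / (M : ℝ)) ≤ Int.fract v := min_le_left _ _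
    have h3 : Int.fract u - (1 - 1 / M) ≤ min (Int.fract u) (1 / (M : ℝ)) := by
      apply le_min <;> linarith
    have h4 : (⌊v⌋ : ℝ) / M - ⌊u⌋ / M = (⌊v⌋ - ⌊u⌋) * (1 / M) := by ring
    have h5 : ((⌊v⌋ : ℝ) - ⌊u⌋) * (1 / M) + (1 - 1 / M) ≤ (⌊v⌋ - ⌊u⌋) := by
      nlinarith
    linarith

lemma g0_lower {M : ℕ} (hM : 1 ≤ M) (u s : ℝ) (hs : 0 ≤ s) :
    -(1 / (M : ℝ) * s) ≤ g0 M (u + s) - g0 M u := by
  rw [g0_eq, g0_eq]
  have h := H_mono hM (show u ≤ u + s by linarith)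
  have e : (u + s) / M - u / M = 1 / (M : ℝ) * s := by ring
  linarith

lemma g0_upper {M : ℕ} (hM : 1 ≤ M) (u s : ℝ) (hs : 0 ≤ s) :
    g0 M (u + s) - g0 M u ≤ s := by
  rw [g0_eq, g0_eq]
  have hM0 : (0 : ℝ) < M := by exact_mod_cast hM
  have h := H_lip hM (show u ≤ u + s by linarith)
  have e : (u + s) / M - u / M = 1 / (M : ℝ) * s := by ring
  have e2 : 0 ≤ 1 / (M : ℝ) * s := by positivity
  linarith

lemma g0_nonneg {M : ℕ} (hM : 1 ≤ M) (x : ℝ) : 0 ≤ g0 M x := by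
  have hM0 : (0 : ℝ) < M := by exact_mod_cast hM
  have hM1 : (1 : ℝ) ≤ M := by exact_mod_cast hM
  unfold g0
  have h1 := Int.fract_nonneg x
  have h2 := (Int.fract_lt_one x).le
  have h3 : Int.fract x / M ≤ min (Int.fract x) (1 / (M : ℝ)) := by
    apply le_min
    · rw [div_le_iff₀ hM0]
      nlinarith
    · gcongr
  linarith

lemma g0_le {M : ℕ} (hM : 1 ≤ M) (x : ℝ) : g0 M x ≤ 1 / M := by
  have hM0 : (0 : ℝ) < M := by exact_mod_cast hM
  unfold g0
  have h1 : 0 ≤ Int.fract x / M := div_nonneg (Int.fract_nonneg x) hM0.le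
  have h2 : min (Int.fract x) (1 / (M : ℝ)) ≤ 1 / M := min_le_right _ _
  linarith

/-- The increment over an interval containing `[l, l + 1/M]`, `l` an integer. -/
lemma g0_increment {M : ℕ} (hM : 2 ≤ M) (u s : ℝ) (l : ℤ) (h1 : u ≤ l)
    (h2 : (l : ℝ) + 1 / M ≤ u + s) :
    1 / (M : ℝ) - 1 / M * s ≤ g0 M (u + s) - g0 M u := by
  have hM0 : (0 : ℝ) < M := by exact_mod_cast (by omega : 0 < M)
  rw [g0_eq, g0_eq]
  have h3 := H_mono (by omega : 1 ≤ M) h1
  have h4 := H_mono (by omega : 1 ≤ M) h2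
  have e : (u + s) / M - u / M = 1 / (M : ℝ) * s := by ring
  have e1 : H M (l : ℝ) = l / M := by
    unfold H
    rw [Int.floor_intCast, Int.fract_intCast, min_eq_left (by positivity), add_zero]
  have e2 : H M ((l : ℝ) + 1 / M) = l / M + 1 / M := by
    have hlt : (1 : ℝ) / M < 1 := by
      rw [div_lt_one hM0]
      exact_mod_cast (by omega : 1 < M)
    have h0 : (0 : ℝ) ≤ 1 / M := by positivity
    have hfl : ⌊(1 : ℝ) / M⌋ = 0 := Int.floor_eq_zero_iff.mpr ⟨h0, hlt⟩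
    unfold H
    rw [Int.floor_intCast_add, Int.fract_intCast_add, hfl, Int.fract_eq_self.mpr ⟨h0, hlt⟩,
      min_self, add_zero]
  rw [e1] at h3
  rw [e2] at h4
  linarith

lemma g0_periodic (M : ℕ) : Function.Periodic (g0 M) 1 := by
  intro x
  unfold g0
  rw [Int.fract_add_one]

/-- The translates. -/
noncomputable def gi (M : ℕ) (i : ℕ) (x : ℝ) : ℝ := g0 M (x - i / M)

lemma gi_periodic (M i : ℕ) : Function.Periodic (gi M i) 1 := by
  intro x
  unfold gi
  rw [show x + 1 - (i : ℝ) / M = (x - i / M) + 1 by ring]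
  exact g0_periodic M _

/-- Some translate has a large increment over each interval of length more than `2/M`. -/
lemma exists_gi {M : ℕ} (hM : 2 ≤ M) (u s : ℝ) (hs : 2 / (M : ℝ) < s) :
    ∃ i < M, 1 / (M : ℝ) - 1 / M * s ≤ gi M i (u + s) - gi M i u := by
  have hM0 : (0 : ℝ) < M := by exact_mod_cast (by omega : 0 < M)
  have hMz : (0 : ℤ) < M := by exact_mod_cast (by omega : 0 < M)
  set j : ℤ := ⌈u * M⌉ with hj
  have hj1 : u * M ≤ j := Int.le_ceil _
  have hj2 : (j : ℝ) < u * M + 1 := Int.ceil_lt_add_one _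
  have hmod := Int.emod_add_mul_ediv j M
  have hm0 := Int.emod_nonneg j hMz.ne'
  have hm1 := Int.emod_lt_of_pos j hMz
  set r : ℤ := j % M with hr
  set l : ℤ := j / M with hl
  refine ⟨r.toNat, by omega, ?_⟩
  have hrr : ((r.toNat : ℕ) : ℝ) = (r : ℝ) := by
    have : ((r.toNat : ℕ) : ℤ) = r := Int.toNat_of_nonneg hm0
    exact_mod_cast congrArg (fun z : ℤ => (z : ℝ)) this
  have hjr : (j : ℝ) = r + M * l := by exact_mod_cast hmod.symm
  unfold gi
  rw [hrr, show u + s - (r : ℝ) / M = (u - r / M) + s by ring]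
  apply g0_increment hM _ _ l
  · rw [sub_le_iff_le_add, ← mul_le_mul_iff_left₀ hM0]
    have : ((l : ℝ) + r / M) * M = r + M * l := by field_simp; ring
    rw [this, ← hjr]
    exact hj1
  · have h5 : (u - r / M + s) - (l + 1 / M) = (u * M + s * M - 1 - j) / M := by
      rw [hjr]
      field_simp
      ring
    have h6 : 0 ≤ (u * M + s * M - 1 - j) / M := by
      apply div_nonneg _ hM0.le
      have h7 : 2 < s * M := by rwa [div_lt_iff₀ hM0] at hs
      linarith
    linarith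


lemma gi_lipschitz {M : ℕ} (hM : 1 ≤ M) (i : ℕ) : LipschitzWith 1 (gi M i) := by
  have key : ∀ u s : ℝ, 0 ≤ s → |gi M i (u + s) - gi M i u| ≤ s := by
    intro u s hs
    unfold gi
    rw [show u + s - (i : ℝ) / M = (u - i / M) + s by ring, abs_le]
    have h1 := g0_lower hM (u - i / M) s hs
    have h2 := g0_upper hM (u - i / M) s hs
    have hM0 : (0 : ℝ) < M := by exact_mod_cast hM
    have hM1 : (1 : ℝ) ≤ M := by exact_mod_cast hM
    have h3 : 1 / (M : ℝ) * s ≤ 1 * s := by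
      apply mul_le_mul_of_nonneg_right _ hs
      rw [div_le_one hM0]
      exact hM1
    constructor <;> linarith
  apply LipschitzWith.of_dist_le_mul
  intro x y
  rw [Real.dist_eq, Real.dist_eq, NNReal.coe_one, one_mul]
  rcases le_total x y with h | h
  · have := key x (y - x) (by linarith)
    rw [add_sub_cancel] at this
    rw [abs_sub_comm, abs_sub_comm x y, abs_of_nonneg (by linarith : 0 ≤ y - x)]
    exact this
  · have := key y (x - y) (by linarith)
    rw [add_sub_cancel] at this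
    rw [abs_of_nonneg (by linarith : 0 ≤ x - y)]
    exact this

/-! ### Periodic Lipschitz functions -/

lemma periodic_osc {g : ℝ → ℝ} {K : NNReal} (hp : Function.Periodic g 1)
    (hL : LipschitzWith K g) (u v : ℝ) : |g u - g v| ≤ K := by
  have h1 : u = v + Int.fract (u - v) + (⌊u - v⌋ : ℤ) * 1 := by
    have := Int.floor_add_fract (u - v)
    linarith
  have h2 : g u = g (v + Int.fract (u - v)) := by
    conv_lhs => rw [h1]
    exact hp.int_mul _ _
  rw [h2]
  have h3 := hL.dist_le_mul (v + Int.fract (u - v)) v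
  rw [Real.dist_eq, Real.dist_eq, add_sub_cancel_left,
    abs_of_nonneg (Int.fract_nonneg (u - v))] at h3
  calc |g (v + Int.fract (u - v)) - g v| ≤ K * Int.fract (u - v) := h3
    _ ≤ K * 1 := by
        gcongr
        exact (Int.fract_lt_one _).le
    _ = K := mul_one _

lemma periodic_bounded {g : ℝ → ℝ} {K : NNReal} (hp : Function.Periodic g 1)
    (hL : LipschitzWith K g) (u : ℝ) : |g u| ≤ |g 0| + K := by
  have h := periodic_osc hp hL u 0
  calc |g u| = |g 0 + (g u - g 0)| := by congr 1; ring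
    _ ≤ |g 0| + |g u - g 0| := abs_add_le _ _
    _ ≤ |g 0| + K := by linarith

lemma lipschitz_incr {g : ℝ → ℝ} {K : NNReal} (hL : LipschitzWith K g) (u s : ℝ) (hs : 0 ≤ s) :
    |g (u + s) - g u| ≤ K * s := by
  have h3 := hL.dist_le_mul (u + s) u
  rwa [Real.dist_eq, Real.dist_eq, add_sub_cancel_left, abs_of_nonneg hs] at h3

lemma W_periodic {b : ℕ} {α : ℝ} {g : ℝ → ℝ} (hp : Function.Periodic g 1) :
    Function.Periodic (W b α g) 1 := by
  intro x
  unfold W
  congr 1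
  funext k
  have h : (b : ℝ) ^ k * (x + 1) = (b : ℝ) ^ k * x + ((b ^ k : ℕ) : ℤ) * 1 := by
    push_cast
    ring
  rw [h, hp.int_mul]

/-- The scale of `h`. -/
lemma exists_scale {b : ℕ} (hb : 2 ≤ b) {h : ℝ} (h0 : 0 < h) (h1 : h ≤ 1) :
    ∃ N : ℕ, h * (b : ℝ) ^ N ≤ 1 ∧ 1 < h * (b : ℝ) ^ (N + 1) := by
  classical
  have hb1 : (1 : ℝ) < b := by exact_mod_cast (by omega : 1 < b)
  have hex : ∃ N : ℕ, 1 < h * (b : ℝ) ^ (N + 1) := by
    obtain ⟨N, hN⟩ := pow_unbounded_of_one_lt (1 / h) hb1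
    refine ⟨N, ?_⟩
    rw [div_lt_iff₀ h0] at hN
    calc 1 < (b : ℝ) ^ N * h := hN
      _ ≤ (b : ℝ) ^ (N + 1) * h := by
          gcongr
          · exact hb1.le
          · omega
      _ = _ := mul_comm _ _
  refine ⟨Nat.find hex, ?_, Nat.find_spec hex⟩
  rcases Nat.eq_zero_or_pos (Nat.find hex) with h2 | h2
  · rw [h2, pow_zero, mul_one]
    exact h1
  · have h3 := Nat.find_min hex (m := Nat.find hex - 1) (by omega)
    rw [Nat.sub_add_cancel h2] at h3
    exact not_lt.mp h3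

lemma scale_lower {b : ℕ} (hb : 2 ≤ b) {α : ℝ} (hα : 0 < α) {h : ℝ} (h0 : 0 < h) {N : ℕ}
    (hN : h * (b : ℝ) ^ N ≤ 1) : h ^ α ≤ ((b : ℝ) ^ (-α)) ^ N := by
  have hb0 : (0 : ℝ) < b := by exact_mod_cast (by omega : 0 < b)
  have h1 : h ≤ ((b : ℝ) ^ N)⁻¹ := by
    rw [← one_div, le_div_iff₀ (by positivity)]
    exact hN
  calc h ^ α ≤ (((b : ℝ) ^ N)⁻¹) ^ α := Real.rpow_le_rpow h0.le h1 hα.le
    _ = ((b : ℝ) ^ (-α)) ^ N := by
        rw [Real.inv_rpow (by positivity), Real.rpow_neg hb0.le, inv_pow]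
        congr 1
        rw [← Real.rpow_natCast, ← Real.rpow_natCast, ← Real.rpow_mul hb0.le,
          ← Real.rpow_mul hb0.le, mul_comm]

lemma scale_upper {b : ℕ} (hb : 2 ≤ b) {α : ℝ} (hα : 0 < α) {h : ℝ} {N : ℕ}
    (hN : 1 < h * (b : ℝ) ^ (N + 1)) : ((b : ℝ) ^ (-α)) ^ N ≤ (b : ℝ) ^ α * h ^ α := by
  have hb0 : (0 : ℝ) < b := by exact_mod_cast (by omega : 0 < b)
  have h1 : ((b : ℝ) ^ (N + 1))⁻¹ ≤ h := by
    rw [← one_div, div_le_iff₀ (by positivity)]
    exact hN.le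
  have h2 : (((b : ℝ) ^ (N + 1))⁻¹) ^ α ≤ h ^ α := Real.rpow_le_rpow (by positivity) h1 hα.le
  calc ((b : ℝ) ^ (-α)) ^ N = (b : ℝ) ^ α * (((b : ℝ) ^ (N + 1))⁻¹) ^ α := by
        rw [Real.inv_rpow (by positivity), Real.rpow_neg hb0.le, inv_pow]
        have e : ((b : ℝ) ^ (N + 1)) ^ α = ((b : ℝ) ^ α) ^ (N + 1) := by
          rw [← Real.rpow_natCast, ← Real.rpow_natCast, ← Real.rpow_mul hb0.le,
            ← Real.rpow_mul hb0.le, mul_comm]
        rw [e, pow_succ]
        have hpos : 0 < (b : ℝ) ^ α := Real.rpow_pos_of_pos hb0 _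
        field_simp
    _ ≤ _ := by
        gcongr

/-! ### The trigonometric members -/

/-- If `g(x) = φ(x) - b^(-α) φ(b x)` then `W_g = φ`. -/
lemma W_telescope {b : ℕ} (hb : 2 ≤ b) {α : ℝ} (hα : 0 < α) {φ : ℝ → ℝ} {B : ℝ}
    (hφ : ∀ x, |φ x| ≤ B) (x : ℝ) :
    W b α (fun x => φ x - (b : ℝ) ^ (-α) * φ (b * x)) x = φ x := by
  unfold W
  simp only [weight_eq hb]
  have hs := summable_weighted hb hα (c := fun k => φ ((b : ℝ) ^ k * x)) fun k => hφ _
  have hs' := (summable_nat_add_iff 1).mpr hs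
  have e : ∀ k : ℕ, ((b : ℝ) ^ (-α)) ^ k * (φ ((b : ℝ) ^ k * x) -
      (b : ℝ) ^ (-α) * φ (b * ((b : ℝ) ^ k * x))) =
      ((b : ℝ) ^ (-α)) ^ k * φ ((b : ℝ) ^ k * x) -
        ((b : ℝ) ^ (-α)) ^ (k + 1) * φ ((b : ℝ) ^ (k + 1) * x) := by
    intro k
    rw [pow_succ' (b : ℝ) k, mul_assoc (b : ℝ)]
    ring
  simp only [e]
  rw [hs.tsum_sub hs', hs.tsum_eq_zero_add]
  simp

lemma cos_periodic : Function.Periodic (fun x : ℝ => Real.cos (2 * Real.pi * x)) 1 := by
  intro x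
  simp only
  rw [mul_add, mul_one, Real.cos_add_two_pi]

lemma sin_periodic : Function.Periodic (fun x : ℝ => Real.sin (2 * Real.pi * x)) 1 := by
  intro x
  simp only
  rw [mul_add, mul_one, Real.sin_add_two_pi]

lemma cos_lipschitz : LipschitzWith (2 * Real.pi.toNNReal)
    (fun x : ℝ => Real.cos (2 * Real.pi * x)) := by
  apply LipschitzWith.of_dist_le_mul
  intro x y
  have h1 := Real.abs_cos_sub_cos_le (2 * Real.pi * x) (2 * Real.pi * y)
  rw [Real.dist_eq, Real.dist_eq]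
  push_cast
  rw [Real.coe_toNNReal _ Real.pi_pos.le]
  calc _ ≤ |2 * Real.pi * x - 2 * Real.pi * y| := h1
    _ = 2 * Real.pi * |x - y| := by
        rw [← mul_sub, abs_mul, abs_of_pos (by positivity : (0 : ℝ) < 2 * Real.pi)]

lemma sin_lipschitz : LipschitzWith (2 * Real.pi.toNNReal)
    (fun x : ℝ => Real.sin (2 * Real.pi * x)) := by
  apply LipschitzWith.of_dist_le_mul
  intro x y
  have h1 := Real.abs_sin_sub_sin_le (2 * Real.pi * x) (2 * Real.pi * y)
  rw [Real.dist_eq, Real.dist_eq]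
  push_cast
  rw [Real.coe_toNNReal _ Real.pi_pos.le]
  calc _ ≤ |2 * Real.pi * x - 2 * Real.pi * y| := h1
    _ = 2 * Real.pi * |x - y| := by
        rw [← mul_sub, abs_mul, abs_of_pos (by positivity : (0 : ℝ) < 2 * Real.pi)]

lemma tel_periodic {b : ℕ} {α : ℝ} {φ : ℝ → ℝ} (hp : Function.Periodic φ 1) :
    Function.Periodic (fun x => φ x - (b : ℝ) ^ (-α) * φ (b * x)) 1 := by
  intro x
  simp only
  have h : (b : ℝ) * (x + 1) = (b : ℝ) * x + ((b : ℕ) : ℤ) * 1 := by
    push_cast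
    ring
  rw [hp x, h, hp.int_mul]

lemma tel_lipschitz {b : ℕ} {α : ℝ} {φ : ℝ → ℝ} {K : NNReal} (hL : LipschitzWith K φ) :
    ∃ K' : NNReal, LipschitzWith K' (fun x => φ x - (b : ℝ) ^ (-α) * φ (b * x)) := by
  have h1 : LipschitzWith (b : NNReal) (fun x : ℝ => (b : ℝ) * x) := by
    apply LipschitzWith.of_dist_le_mul
    intro x y
    rw [Real.dist_eq, Real.dist_eq, ← mul_sub, abs_mul]
    simp
  have h2 : LipschitzWith ((b : ℝ) ^ (-α)).toNNReal (fun x : ℝ => (b : ℝ) ^ (-α) * x) := by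
    apply LipschitzWith.of_dist_le_mul
    intro x y
    rw [Real.dist_eq, Real.dist_eq, ← mul_sub, abs_mul,
      Real.coe_toNNReal _ (Real.rpow_nonneg (by positivity) _),
      abs_of_nonneg (Real.rpow_nonneg (by positivity) _)]
  exact ⟨_, hL.sub (h2.comp (hL.comp h1))⟩

/-! ### The two bounds -/

/-- The upper Hölder bound for one function. -/
lemma upper_one {b : ℕ} (hb : 2 ≤ b) {α : ℝ} (hα : 0 < α) (hα1 : α < 1) {g : ℝ → ℝ}
    (hp : Function.Periodic g 1) (hL : ∃ K, LipschitzWith K g) :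
    ∃ C : ℝ, 0 ≤ C ∧ ∀ x h : ℝ, 0 < h → h ≤ 1 → |W b α g (x + h) - W b α g x| ≤ C * h ^ α := by
  obtain ⟨K, hL⟩ := hL
  have hq0 := q_pos (α := α) hb
  have hq1 := q_lt_one hb hα
  have hp1 := p_gt_one hb hα1
  have hb0 : (0 : ℝ) < b := by exact_mod_cast (by omega : 0 < b)
  have hC1 : 0 ≤ C1 b α := by
    unfold C1
    have : 0 < (b : ℝ) ^ (1 - α) - 1 := by linarith
    positivity
  have hC2 : 0 ≤ C2 b α := by
    unfold C2
    have : 0 < 1 - (b : ℝ) ^ (-α) := by linarith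
    positivity
  refine ⟨(b : ℝ) ^ α * (C1 b α * K + C2 b α * K), by positivity, fun x h h0 h1 => ?_⟩
  obtain ⟨N, hN, hN'⟩ := exists_scale hb h0 h1
  have h2 := W_upper hb hα hα1 (L1 := K) (L2 := K) K.2 K.2 (periodic_bounded hp hL)
    (lipschitz_incr hL) (periodic_osc hp hL) x h h0.le hN
  calc _ ≤ _ := h2
    _ ≤ ((b : ℝ) ^ α * h ^ α) * (C1 b α * K + C2 b α * K) := by
        gcongr
        exact scale_upper hb hα hN'
    _ = _ := by ring

/-- **For every integer `b ≥ 2` and every `α ∈ (0,1)` there are finitely many `1`-periodic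
Lipschitz functions `g_1, …, g_m` whose Weierstrass embedding is `α`-bi-Hölder on the circle.** -/
theorem result (b : ℕ) (hb : 2 ≤ b) (α : ℝ) (hα : 0 < α) (hα1 : α < 1) :
    ∃ (m : ℕ) (g : Fin m → ℝ → ℝ), 1 ≤ m ∧ (∀ i, Function.Periodic (g i) 1) ∧
      (∀ i, ∃ K, LipschitzWith K (g i)) ∧
      ∃ C : ℝ, 1 ≤ C ∧ ∀ x y : ℝ,
        C⁻¹ * (dist (x : UnitAddCircle) (y : UnitAddCircle)) ^ α ≤
            ‖Phi b α g x - Phi b α g y‖ ∧
          ‖Phi b α g x - Phi b α g y‖ ≤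
            C * (dist (x : UnitAddCircle) (y : UnitAddCircle)) ^ α := by
  have hq0 := q_pos (α := α) hb
  have hq1 := q_lt_one hb hα
  have hp1 := p_gt_one hb hα1
  have hb0 : (0 : ℝ) < b := by exact_mod_cast (by omega : 0 < b)
  have hb1 : (1 : ℝ) ≤ b := by exact_mod_cast (by omega : 1 ≤ b)
  have hC1 : 0 ≤ C1 b α := by
    unfold C1
    have : 0 < (b : ℝ) ^ (1 - α) - 1 := by linarith
    positivity
  have hC2 : 0 ≤ C2 b α := by
    unfold C2
    have : 0 < 1 - (b : ℝ) ^ (-α) := by linarith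
    positivity
  -- the number `n`
  obtain ⟨n, hn⟩ : ∃ n : ℕ, ((b : ℝ) ^ (-α)) ^ n * (C1 b α + C2 b α + 1) < 1 := by
    have h1 : Tendsto (fun n : ℕ => ((b : ℝ) ^ (-α)) ^ n * (C1 b α + C2 b α + 1)) atTop
        (𝓝 (0 * (C1 b α + C2 b α + 1))) :=
      (tendsto_pow_atTop_nhds_zero_of_lt_one hq0.le hq1).mul_const _
    rw [zero_mul] at h1
    exact (h1.eventually_lt_const one_pos).exists
  set M : ℕ := 2 * b ^ (n + 1) with hM
  have hM2 : 2 ≤ M := by
    have : 1 ≤ b ^ (n + 1) := Nat.one_le_pow _ _ (by omega)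
    omega
  have hM0 : (0 : ℝ) < M := by exact_mod_cast (by omega : 0 < M)
  have hM1 : (1 : ℝ) ≤ M := by exact_mod_cast (by omega : 1 ≤ M)
  have hMb : (M : ℝ) = 2 * (b : ℝ) ^ (n + 1) := by rw [hM]; push_cast; ring
  set q : ℝ := (b : ℝ) ^ (-α) with hq
  set gc : ℝ → ℝ := fun x => Real.cos (2 * Real.pi * x) - q * Real.cos (2 * Real.pi * (b * x))
    with hgc
  set gs : ℝ → ℝ := fun x => Real.sin (2 * Real.pi * x) - q * Real.sin (2 * Real.pi * (b * x))
    with hgs
  set g : Fin (M + 2) → ℝ → ℝ := fun i => if (i : ℕ) < M then gi M i else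
    if (i : ℕ) = M then gc else gs with hg
  have hgper : ∀ i, Function.Periodic (g i) 1 := by
    intro i
    simp only [hg]
    split_ifs
    · exact gi_periodic M i
    · exact tel_periodic cos_periodic
    · exact tel_periodic sin_periodic
  have hglip : ∀ i, ∃ K, LipschitzWith K (g i) := by
    intro i
    simp only [hg]
    split_ifs
    · exact ⟨1, gi_lipschitz (by omega) i⟩
    · exact tel_lipschitz cos_lipschitz
    · exact tel_lipschitz sin_lipschitz
  choose Cu hCu0 hCu using fun i => upper_one hb hα hα1 (hgper i) (hglip i)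
  set CU : ℝ := Real.sqrt (∑ i, Cu i ^ 2) with hCU
  have hcoord : ∀ (x y : ℝ) (i : Fin (M + 2)),
      |W b α (g i) x - W b α (g i) y| ≤ ‖Phi b α g x - Phi b α g y‖ := by
    intro x y i
    have h := PiLp.norm_apply_le (Phi b α g x - Phi b α g y) i
    simpa [Phi] using h
  -- upper bound
  have hupper : ∀ z h : ℝ, 0 < h → h ≤ 1 →
      ‖Phi b α g (z + h) - Phi b α g z‖ ≤ CU * h ^ α := by
    intro z h h0 h1
    have hpos : 0 ≤ h ^ α := Real.rpow_nonneg h0.le _
    rw [EuclideanSpace.norm_eq, hCU]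
    have e : Real.sqrt (∑ i, Cu i ^ 2) * h ^ α = Real.sqrt ((∑ i, Cu i ^ 2) * (h ^ α) ^ 2) := by
      rw [Real.sqrt_mul (Finset.sum_nonneg fun i _ => sq_nonneg _), Real.sqrt_sq hpos]
    rw [e]
    apply Real.sqrt_le_sqrt
    rw [Finset.sum_mul]
    apply Finset.sum_le_sum
    intro i _
    rw [← mul_pow]
    apply pow_le_pow_left₀ (norm_nonneg _)
    have := hCu i z h h0 h1
    simpa [Phi] using this
  -- lower bound
  have hlower : ∀ z h : ℝ, 0 < h → h ≤ 1 / 2 →
      (M : ℝ)⁻¹ * h ^ α ≤ ‖Phi b α g (z + h) - Phi b α g z‖ := by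
    intro z h h0 h1
    have hpos : 0 < h ^ α := Real.rpow_pos_of_pos h0 _
    obtain ⟨N, hN, hN'⟩ := exists_scale hb h0 (by linarith : h ≤ 1)
    rcases le_or_gt n N with hnN | hnN
    · -- small distances
      obtain ⟨K, rfl⟩ : ∃ K, N = n + K := ⟨N - n, by omega⟩
      have hs1 : (b : ℝ) ^ K * h ≤ 1 := by
        calc (b : ℝ) ^ K * h ≤ (b : ℝ) ^ (n + K) * h := by
              gcongr
              omega
          _ = h * (b : ℝ) ^ (n + K) := mul_comm _ _
          _ ≤ 1 := hN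
      have hs2 : 2 / (M : ℝ) < (b : ℝ) ^ K * h := by
        rw [hMb, div_lt_iff₀ (by positivity)]
        have e : h * (b : ℝ) ^ (n + K + 1) = (b : ℝ) ^ K * h * (b : ℝ) ^ (n + 1) := by
          rw [show n + K + 1 = K + (n + 1) by ring, pow_add]
          ring
        rw [e] at hN'
        linarith
      obtain ⟨i, hi, hinc⟩ := exists_gi hM2 ((b : ℝ) ^ K * z) ((b : ℝ) ^ K * h) hs2
      have hL : (0 : ℝ) ≤ 1 / M := by positivity
      have hosc : ∀ u v, |gi M i u - gi M i v| ≤ 1 / M := by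
        intro u v
        unfold gi
        rw [abs_le]
        have a1 := g0_nonneg (by omega : 1 ≤ M) (u - i / M)
        have a2 := g0_nonneg (by omega : 1 ≤ M) (v - i / M)
        have a3 := g0_le (by omega : 1 ≤ M) (u - i / M)
        have a4 := g0_le (by omega : 1 ≤ M) (v - i / M)
        constructor <;> linarith
      have hlow1 : ∀ u s, 0 ≤ s → -(1 / (M : ℝ) * s) ≤ gi M i (u + s) - gi M i u := by
        intro u s hs
        unfold gi
        rw [show u + s - (i : ℝ) / M = (u - i / M) + s by ring]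
        exact g0_lower (by omega) _ s hs
      have hlow := W_lower hb hα hα1 hL (periodic_bounded (gi_periodic M i)
        (gi_lipschitz (by omega) i)) hlow1 hosc z h h0.le hN hs1 hinc
      have hmain : q ^ (n + K) * (1 / (M : ℝ)) ≤
          q ^ K * (1 / (M : ℝ)) - q ^ (n + K) * (C1 b α * (1 / M) + C2 b α * (1 / M)) := by
        have e : q ^ K * (1 / (M : ℝ)) - q ^ (n + K) * (C1 b α * (1 / M) + C2 b α * (1 / M)) -
            q ^ (n + K) * (1 / (M : ℝ)) =
            q ^ K * (1 / (M : ℝ)) * (1 - q ^ n * (C1 b α + C2 b α + 1)) := by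
          rw [pow_add]
          ring
        have e2 : 0 ≤ q ^ K * (1 / (M : ℝ)) * (1 - q ^ n * (C1 b α + C2 b α + 1)) := by
          have : 0 ≤ 1 - q ^ n * (C1 b α + C2 b α + 1) := by linarith
          positivity
        linarith
      have hsc := scale_lower hb hα h0 hN
      have hgi : g ⟨i, by omega⟩ = gi M i := by
        simp only [hg]
        rw [if_pos hi]
      have hc := hcoord (z + h) z ⟨i, by omega⟩
      rw [hgi] at hc
      calc (M : ℝ)⁻¹ * h ^ α ≤ (M : ℝ)⁻¹ * q ^ (n + K) := by gcongr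
        _ = q ^ (n + K) * (1 / (M : ℝ)) := by ring
        _ ≤ W b α (gi M i) (z + h) - W b α (gi M i) z := hmain.trans hlow
        _ ≤ |W b α (gi M i) (z + h) - W b α (gi M i) z| := le_abs_self _
        _ ≤ _ := hc
    · -- large distances
      have hgc' : g ⟨M, by omega⟩ = gc := by
        simp only [hg]
        rw [if_neg (lt_irrefl M)]
        simp
      have hgs' : g ⟨M + 1, by omega⟩ = gs := by
        simp only [hg]
        rw [if_neg (by omega), if_neg (by omega)]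
      have hc1 := hcoord (z + h) z ⟨M, by omega⟩
      have hc2 := hcoord (z + h) z ⟨M + 1, by omega⟩
      rw [hgc'] at hc1
      rw [hgs'] at hc2
      have hWc : ∀ x, W b α gc x = Real.cos (2 * Real.pi * x) := fun x =>
        W_telescope hb hα (φ := fun x => Real.cos (2 * Real.pi * x)) (B := 1)
          (fun x => Real.abs_cos_le_one _) x
      have hWs : ∀ x, W b α gs x = Real.sin (2 * Real.pi * x) := fun x =>
        W_telescope hb hα (φ := fun x => Real.sin (2 * Real.pi * x)) (B := 1)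
          (fun x => Real.abs_sin_le_one _) x
      rw [hWc, hWc] at hc1
      rw [hWs, hWs] at hc2
      set R : ℝ := ‖Phi b α g (z + h) - Phi b α g z‖ with hR
      have hR0 : 0 ≤ R := norm_nonneg _
      have hsq : 4 * Real.sin (Real.pi * h) ^ 2 ≤ 2 * R ^ 2 := by
        have e1 : (Real.cos (2 * Real.pi * (z + h)) - Real.cos (2 * Real.pi * z)) ^ 2 +
            (Real.sin (2 * Real.pi * (z + h)) - Real.sin (2 * Real.pi * z)) ^ 2 =
            4 * Real.sin (Real.pi * h) ^ 2 := by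
          have a1 := Real.cos_sq_add_sin_sq (2 * Real.pi * (z + h))
          have a2 := Real.cos_sq_add_sin_sq (2 * Real.pi * z)
          have a3 : Real.cos (2 * Real.pi * (z + h)) * Real.cos (2 * Real.pi * z) +
              Real.sin (2 * Real.pi * (z + h)) * Real.sin (2 * Real.pi * z) =
              Real.cos (2 * (Real.pi * h)) := by
            rw [← Real.cos_sub]
            congr 1
            ring
          have a4 := Real.cos_two_mul (Real.pi * h)
          have a5 := Real.cos_sq_add_sin_sq (Real.pi * h)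
          nlinarith
        rw [← e1]
        have b1 := sq_le_sq' (by linarith [abs_nonneg (Real.cos (2 * Real.pi * (z + h)) -
          Real.cos (2 * Real.pi * z))]) hc1
        have b2 := sq_le_sq' (by linarith [abs_nonneg (Real.sin (2 * Real.pi * (z + h)) -
          Real.sin (2 * Real.pi * z))]) hc2
        rw [sq_abs] at b1 b2
        linarith
      have hsin : 2 * h ≤ Real.sin (Real.pi * h) := by
        have := Real.mul_le_sin (x := Real.pi * h) (by positivity) (by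
          have := Real.pi_pos
          nlinarith)
        have e : 2 / Real.pi * (Real.pi * h) = 2 * h := by
          have := Real.pi_ne_zero
          field_simp
        rw [e] at this
        exact this
      have hR2 : h ≤ R := by
        have h3 : h ^ 2 ≤ R ^ 2 := by
          have h4 : (2 * h) ^ 2 ≤ Real.sin (Real.pi * h) ^ 2 :=
            pow_le_pow_left₀ (by positivity) hsin 2
          nlinarith [sq_nonneg h]
        exact (pow_le_pow_iff_left₀ h0.le hR0 (by norm_num)).mp h3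
      have hbn : ((b : ℝ) ^ n)⁻¹ ≤ h := by
        rw [← one_div, div_le_iff₀ (by positivity)]
        calc (1 : ℝ) ≤ h * (b : ℝ) ^ (N + 1) := hN'.le
          _ ≤ h * (b : ℝ) ^ n := by
              gcongr
              omega
      have hMle : (M : ℝ)⁻¹ ≤ ((b : ℝ) ^ n)⁻¹ := by
        gcongr
        rw [hMb, pow_succ]
        have : (0 : ℝ) < (b : ℝ) ^ n := by positivity
        nlinarith
      have hhα : h ^ α ≤ 1 := Real.rpow_le_one h0.le (by linarith) hα.le
      calc (M : ℝ)⁻¹ * h ^ α ≤ (M : ℝ)⁻¹ * 1 := by gcongr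
        _ ≤ h := by rw [mul_one]; exact hMle.trans hbn
        _ ≤ R := hR2
  -- conclusion
  set C : ℝ := max (M : ℝ) CU with hC
  have hCM : (M : ℝ) ≤ C := le_max_left _ _
  have hCCU : CU ≤ C := le_max_right _ _
  have hC1' : 1 ≤ C := hM1.trans hCM
  have hboth : ∀ z h : ℝ, 0 ≤ h → h ≤ 1 / 2 →
      C⁻¹ * h ^ α ≤ ‖Phi b α g (z + h) - Phi b α g z‖ ∧
        ‖Phi b α g (z + h) - Phi b α g z‖ ≤ C * h ^ α := by
    intro z h h0 h1
    rcases eq_or_lt_of_le h0 with rfl | h0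
    · rw [Real.zero_rpow hα.ne', add_zero, sub_self, norm_zero]
      simp
    · have hpos : 0 ≤ h ^ α := Real.rpow_nonneg h0.le _
      constructor
      · calc C⁻¹ * h ^ α ≤ (M : ℝ)⁻¹ * h ^ α := by gcongr
          _ ≤ _ := hlower z h h0 h1
      · calc _ ≤ CU * h ^ α := hupper z h h0 (by linarith)
          _ ≤ C * h ^ α := by gcongr
  have hPper : ∀ (x : ℝ) (k : ℤ), Phi b α g (x + k) = Phi b α g x := by
    intro x k
    unfold Phi
    congr 1
    funext i
    have := (W_periodic (b := b) (α := α) (hgper i)).int_mul k x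
    rw [mul_one] at this
    exact this
  refine ⟨M + 2, g, by omega, hgper, hglip, C, hC1', fun x y => ?_⟩
  have hd : dist (x : UnitAddCircle) (y : UnitAddCircle) = |x - y - round (x - y)| := by
    rw [dist_eq_norm, ← AddCircle.coe_sub, UnitAddCircle.norm_eq]
  have hd2 : |x - y - round (x - y)| ≤ 1 / 2 := abs_sub_round (x - y)
  rw [hd]
  set δ : ℝ := x - y - round (x - y) with hδ
  rcases le_total 0 δ with h | h
  · rw [abs_of_nonneg h] at hd2 ⊢
    have hx : Phi b α g x = Phi b α g (y + δ) := by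
      rw [← hPper (y + δ) (round (x - y))]
      congr 1
      rw [hδ]
      ring
    rw [hx]
    exact hboth y δ h hd2
  · rw [abs_of_nonpos h] at hd2 ⊢
    have hy : Phi b α g y = Phi b α g (x + -δ) := by
      rw [← hPper y (round (x - y))]
      congr 1
      rw [hδ]
      ring
    rw [hy, norm_sub_rev]
    exact hboth x (-δ) (by linarith) hd2

end Pool.Agent.Results.MP_0a5dd0_an.BiHolder
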